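import Pool.Agent.H27.QD

namespace Pool.Agent.Results.MP_c9c571_nt.Liu
open Finset Polynomial Pool.Agent.H27.QC Pool.Agent.H27.QC.Loc Pool.Agent.H27.QD

/-- the rising factorial `(x)_k` -/
def rising (x : ℚ) (k : ℕ) : ℚ := ∏ i ∈ range k, (x + i)

/-- `c_k` -/
def c (k : ℕ) : ℚ := rising (1 / 2) k ^ 3 / (k.factorial : ℚ) ^ 3

/-- `a_k(q)` -/
def a {K : Type*} [Field K] (q : K) (k : ℕ) : K := q ^ k * ((1 + q ^ (4 * k + 1)) / (1 + q))
  * ∏ j ∈ range k, ((1 - q ^ (4 * j + 2)) / (1 - q ^ (4 * j + 4))) ^ 3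

/-- `R_n(q)` for odd `n` -/
def R {K : Type*} [Field K] (q : K) (n : ℕ) : K := (q ^ ((n - 1) / 2))⁻¹
  * (∑ i ∈ range n, (q ^ 2) ^ i)
    * ∏ j ∈ range ((n - 1) / 2), (1 - q ^ (4 * j + 3)) / (1 - q ^ (4 * j + 5))

/-- congruence modulo `Φ_n(q) ^ 2` -/
def Cong (n : ℕ) (A B : RatFunc ℚ) : Prop := ∃ P Q : ℚ[X], IsCoprime Q (cyclotomic n ℚ) ∧
  cyclotomic n ℚ ^ 2 ∣ P ∧ A - B = algebraMap _ _ P / algebraMap _ _ Q

variable {K : Type*} [Field K]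

def tt (q : K) (b : ℕ) (y : K) : K := q ^ b * (1 + y * q ^ (4 * b + 1)) * rho (q ^ 2) b y ^ 3

theorem a_eq (q : K) (k : ℕ) : a q k = tt q k 1 / (1 + q) := by
  rw [a, tt, prod_pow, rho]
  have : ∏ j ∈ range k, (1 - q ^ (4 * j + 2)) / (1 - q ^ (4 * j + 4))
      = ∏ i ∈ range k, (1 - 1 * (q ^ 2) ^ (2 * i + 1)) / (1 - 1 * (q ^ 2) ^ (2 * i + 2)) :=
    prod_congr rfl fun i _ => by congr 2 <;> ring
  rw [this]; ring

variable [CharZero K] {L : Loc K} {h : ℕ} (hn : L.n = 2 * h + 1)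
include hn

theorem hs2 : ∀ j, L.n ∣ 2 * j → L.n ∣ j := fun j hj =>
  (show Nat.Coprime L.n 2 by rw [hn]; simp).dvd_of_dvd_mul_left hj

theorem tt_TG {b : ℕ} (hb : b < L.n) : L.TG (tt L.q b) :=
  ((TG.const (L.qp _)).mul ((TG.const (one_mem _)).add (TG.id.mul (TG.const (L.qp _))))).mul
    ((rho_TG hn (hs2 hn) hb).pow 3)

theorem closed : ∑ b ∈ range (h + 1), L.q ^ b * (1 + L.q ^ (4 * b + 1))
    * (rho (L.q ^ 2) b 1 * (rho (L.q ^ 2) b ((L.q ^ L.n) ^ 2)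
      * rho (L.q ^ 2) b ((L.q ^ L.n) ^ 2)⁻¹)) = (1 + L.q) * R L.q L.n := by
  have q0 := L.q0
  have hQ : (L.q ^ L.n) ^ 2 = L.q ^ 2 * (L.q ^ 4) ^ h := by rw [hn]; ring
  have ne : ∀ (j : ℕ) (x : K), x = L.q ^ (j + 1) → 1 - x ≠ 0 := fun j x e => e ▸ L.ne _ (by omega)
  have h2 : ∀ i, 1 - L.q ^ 2 * (L.q ^ 4 * (L.q ^ 4) ^ i) / (L.q ^ 2 * (L.q ^ L.n) ^ 2) ≠ 0 :=
    fun i h0 => by
      have : L.q ^ (2 * L.n) = L.q ^ (4 * i + 4) := by field_simp at h0; linear_combination h0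
      have := q_inj this; omega
  have h3 : ∀ i, 1 - L.q ^ 2 * L.q⁻¹ * (L.q ^ 4 * (L.q ^ 4) ^ i) ≠ 0 :=
    fun i => ne (4 * i + 4) _ (by field_simp; ring)
  have := six5 (L.q ^ 2) (L.q ^ 2 * (L.q ^ L.n) ^ 2) L.q⁻¹ (L.q ^ 4) (pow_ne_zero _ q0)
    (by positivity) (fun i => ne (4 * i + 3) _ (by ring)) h2 h3
    (fun i => ne (4 * i + 5) _ (by ring)) h
  have e1 : ∀ b, uu (L.q ^ 2) (L.q ^ 2 * (L.q ^ L.n) ^ 2) L.q⁻¹ (L.q ^ 4) ((L.q ^ 4) ^ h) b
      = L.q ^ b * ((1 - L.q) / (1 - L.q ^ (4 * b + 1))) * (rho (L.q ^ 2) b 1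
        * (rho (L.q ^ 2) b ((L.q ^ L.n) ^ 2) * rho (L.q ^ 2) b ((L.q ^ L.n) ^ 2)⁻¹)) := by
    intro b
    have e : ∀ b : ℕ, L.q ^ b * ((1 - L.q) / (1 - L.q ^ (4 * b + 1)))
        = ∏ i ∈ range b, L.q * (1 - L.q ^ (4 * i + 1)) / (1 - L.q ^ (4 * i + 5)) := by
      intro b
      induction b with
      | zero => simp [div_self (ne 0 L.q (by simp))]
      | succ b ih =>
        have := ne (4 * b) _ rfl
        rw [prod_range_succ, ← ih, show 4 * (b + 1) + 1 = 4 * b + 5 by ring]; field_simp; ring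
    rw [e, rho, rho, rho, ← prod_mul_distrib, ← prod_mul_distrib, ← prod_mul_distrib, uu]
    refine prod_congr rfl fun i _ => ?_
    rw [div_mul_div_comm, div_mul_div_comm, div_mul_div_comm, hQ]
    refine congrArg₂ (fun x y : K => x / y) ?_ ?_ <;> field_simp <;> ring
  simp only [e1] at this
  have e2 : ∀ N : ℕ, (1 - L.q ^ 2) * ∏ i ∈ range N, (1 - L.q ^ 2 * (L.q ^ 4 * (L.q ^ 4) ^ i))
      = (∏ i ∈ range N, (1 - L.q ^ (4 * i + 2))) * (1 - L.q ^ 2 * (L.q ^ 4) ^ N) := by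
    intro N
    induction N with
    | zero => simp
    | succ N ih => rw [prod_range_succ, prod_range_succ, ← mul_assoc, ih]; ring
  have e3 : ∏ i ∈ range h,
      (1 - L.q ^ 2 * L.q⁻¹ * (L.q ^ 4 * (L.q ^ 4) ^ i) / (L.q ^ 2 * (L.q ^ L.n) ^ 2))
        / (1 - L.q ^ 2 * (L.q ^ 4 * (L.q ^ 4) ^ i) / (L.q ^ 2 * (L.q ^ L.n) ^ 2))
      = ∏ i ∈ range h, L.q⁻¹ * (1 - L.q ^ (4 * i + 3)) / (1 - L.q ^ (4 * i + 2)) := by
    rw [← prod_range_reflect]
    refine prod_congr rfl fun i hi => ?_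
    have := mem_range.mp hi
    rw [div_eq_div_iff (h2 _) (ne (4 * i + 1) _ rfl),
      show L.n = 2 * (h - 1 - i) + 2 + (2 * i + 1) by omega]
    field_simp
    ring
  have e4 : ∏ i ∈ range h, (1 - L.q ^ 2 * L.q⁻¹ * (L.q ^ 4 * (L.q ^ 4) ^ i))
      = ∏ i ∈ range h, (1 - L.q ^ (4 * i + 5)) :=
    prod_congr rfl fun i _ => by field_simp; ring
  have e5 : ∀ x y z w : K, x * y / (z * w) = x * (y / z) / w := fun x y z w => by
    rw [← mul_div_assoc, div_div]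
  rw [prod_congr rfl fun i _ => e5 _ _ _ _, prod_div_distrib, prod_mul_distrib, e3, e4, ← mul_div_assoc, ← mul_assoc, e2, ← hQ,
    prod_div_distrib, prod_mul_distrib, prod_const, card_range] at this
  apply mul_left_cancel₀ (ne 0 L.q (by simp))
  have e6 : (1 - L.q ^ 2) * ∑ i ∈ range L.n, (L.q ^ 2) ^ i = 1 - (L.q ^ L.n) ^ 2 := by
    rw [mul_neg_geom_sum]; ring
  have e7 : ∏ i ∈ range h, (1 - L.q ^ (4 * i + 2)) ≠ 0 :=
    prod_ne_zero_iff.mpr fun i _ => ne (4 * i + 1) _ rfl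
  rw [mul_sum, R, show (L.n - 1) / 2 = h by omega, prod_div_distrib]
  refine Eq.trans (sum_congr rfl fun b _ => ?_) (this.trans ?_)
  · have := ne (4 * b) _ rfl
    rw [show 1 - L.q ^ 2 * ((L.q ^ 4) ^ b) ^ 2 = (1 - L.q ^ (4 * b + 1)) * (1 + L.q ^ (4 * b + 1)) by
      ring]
    field_simp
  · rw [← e6, inv_pow]; field_simp; ring

theorem G_refl {y c : K} (hy : Nr L y c) : ∑ b ∈ range (h + 1), tt L.q b y
    = (L.q ^ h / L.q * (y * (L.q ^ L.n) ^ 2) * rho (L.q ^ 2) h y ^ 3)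
      * ∑ b ∈ range (h + 1), tt L.q b (y * (L.q ^ L.n) ^ 2)⁻¹ := by
  have q0 := L.q0
  have y0 := hy.U.2.2
  rw [← sum_range_reflect, mul_sum]
  refine sum_congr rfl fun b hb => ?_
  obtain ⟨d, hd⟩ : ∃ d, d + b = h := ⟨h - b, by have := mem_range.mp hb; omega⟩
  rw [show h + 1 - 1 - b = d by omega, tt, tt,
    rho_reflect hn (hs2 hn) hd (z := (y * (L.q ^ L.n) ^ 2)⁻¹) hy (by field_simp), hn]
  generalize rho (L.q ^ 2) h y = A
  generalize rho (L.q ^ 2) b (y * (L.q ^ (2 * h + 1)) ^ 2)⁻¹ = B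
  subst hd
  field_simp
  ring

theorem main (hh : 0 < h) (he : Even h) (m : ℕ) :
    L.E 2 (∑ k ∈ range (m * L.n), a L.q k) (R L.q L.n * ∑ k ∈ range m, (c k : K)) := by
  have hU : L.U (1 + L.q) := by
    have h1 := U.sub (L := L) (j := 1) (by rw [Nat.dvd_one]; omega)
    have h2 := U.sub (L := L) (j := 2) fun hd => by have := Nat.le_of_dvd two_pos hd; omega
    have := h1.2.2
    rw [show 1 + L.q = (1 - L.q ^ 2) / (1 - L.q ^ 1) by rw [eq_div_iff this]; ring]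
    exact h2.div h1
  have hR := rho_U hn (hs2 hn) le_rfl (Nr.one (L := L))
  obtain ⟨l, hl0, hl⟩ := TG_nr (rho_TG hn (hs2 hn) (b := h) (by omega)) hR
  have hG : L.TG fun y => ∑ b ∈ range (h + 1), tt L.q b y :=
    TG.sum _ fun b hb => tt_TG hn (by have := mem_range.mp hb; omega)
  obtain ⟨μ, hμ⟩ : ∃ μ, Nr L (L.q ^ h / L.q * (L.q ^ L.n) ^ 2 * rho (L.q ^ 2) h 1 ^ 3) μ := by
    apply Nr.of_E
    have a1 := (rho_half hn (hs2 hn)).pow (pow_mem (neg_mem (one_mem _)) _) 3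
    have a2 := ((Nr.qn (L := L) 2).mul (Nr.qn (3 * h + 1)).inv).near
    rw [he.neg_one_pow] at a1
    refine (a1.mul a2 (pow_mem (one_mem _) 3) (one_mem _)).of_sub ?_
    have q0 := L.q0
    rw [hn]
    field_simp
    ring
  have key := fun y c (hy : Nr L y c) => reflect_plus (μ := μ) (l := 1 + 3 * l)
    (κ := fun y => L.q ^ h / L.q * (y * (L.q ^ L.n) ^ 2) * rho (L.q ^ 2) h y ^ 3) hG (Nr.qn 2)
    (fun y c hy => ((hμ.mul hy).mul ((hl y c hy).pow 3)).congr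
      (by have := hR.2.2; field_simp) (by push_cast; ring)) (fun y c hy => G_refl hn hy) hy
  have k0 : L.E 2 (∑ b ∈ range (h + 1), tt L.q b 1) ((1 + L.q) * R L.q L.n) := by
    refine E.trans (E.sum _ fun b hb => ?_) (E.of_eq (closed hn))
    have hb' : b < L.n := by have := mem_range.mp hb; omega
    refine ((rho_pair hn (hs2 hn) hb' (Nr.qn 2)).symm.smul (z := L.q ^ b * (1 + L.q ^ (4 * b + 1))
      * rho (L.q ^ 2) b 1) (mul_mem (mul_mem (L.qp _) (add_mem (one_mem _) (L.qp _)))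
        (rho_TG hn (hs2 hn) hb').1)).of_sub ?_
    unfold tt; ring
  rw [sum_blocks, mul_sum]
  refine E.sum _ fun r _ => ?_
  have hY := Nr.qn (L := L) (4 * r)
  have hw : L.U (ww r : K) := U.rat (by unfold ww asc; positivity)
  have k1 := ((rho_blocks hn (hs2 hn) two_ne_zero hl r).pow 3).mul (Nr.qn r)
  have k2 := key _ _ hY
  have k3 : L.E 2 (∑ b ∈ range L.n, tt L.q b ((L.q ^ L.n) ^ (4 * r)))
      (∑ b ∈ range (h + 1), tt L.q b ((L.q ^ L.n) ^ (4 * r))) := by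
    rw [show L.n = h + 1 + h by omega, sum_range_add, ← show L.n = h + 1 + h by omega]
    refine (E.sum (range h) (f := fun b => tt L.q (h + 1 + b) ((L.q ^ L.n) ^ (4 * r)))
      (g := fun _ => 0) fun b hb => ?_).of_sub (by simp)
    have hb' : h + 1 + b < L.n := by have := mem_range.mp hb; omega
    have z := rho_zero hn (hs2 hn) hb' (by omega) hY
    refine ((z.mul_zero z).smul (mul_mem (mul_mem (L.qp (h + 1 + b)) (add_mem (one_mem _)
      (mul_mem hY.U.1 (L.qp (4 * (h + 1 + b) + 1))))) (rho_mem hn (hs2 hn) hb' hY))).of_sub ?_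
    unfold tt; ring
  have hc : ((4 * r : ℕ) : K) * (1 + 3 * l) / 2 ∈ L.O :=
    div_mem' (mul_mem (L.nat_mem _) (add_mem (one_mem _) (mul_mem (L.nat_mem 3) hl0)))
      (by simpa using U.nat (L := L) (a := 2) (by norm_num))
  have k4 := (k1.mul ⟨hc, E.refl _⟩).2
  have k5 := (((k3.trans k2).smul k1.U.1).add (k4.smul hG.1)).add k0
  refine (k5.smul (z := (ww r : K) ^ 3 / (1 + L.q)) (div_mem' (pow_mem hw.1 3) hU)).of_sub ?_
  have e3 : ∀ b, a L.q (r * L.n + b) = rho (L.q ^ 2) (r * L.n) 1 ^ 3 * (L.q ^ L.n) ^ r / (1 + L.q)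
      * tt L.q b ((L.q ^ L.n) ^ (4 * r)) := by
    intro b
    rw [a_eq, tt, tt, rho_add, show 1 * (L.q ^ 2) ^ (2 * (r * L.n)) = (L.q ^ L.n) ^ (4 * r) by ring]
    ring
  have e4 : (c r : K) = (ww r : K) ^ 3 := by
    rw [c, ← div_pow, ww]; push_cast; rfl
  simp only [e3]
  rw [← mul_sum, e4]
  have := hw.2.2
  have := hU.2.2
  push_cast
  field_simp
  ring

omit hn in
theorem result (m n : ℕ) (_hm : 1 ≤ m) (h1 : 1 < n) (h4 : n % 4 = 1) :
    Cong n (∑ k ∈ range (m * n), a RatFunc.X k)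
      (R RatFunc.X n * ∑ k ∈ range m, (c k : RatFunc ℚ)) := by
  obtain ⟨A, B, hB, e⟩ := cyc_out (by omega) (main (L := cycL n (by omega)) (h := n / 2)
    (show n = _ by omega) (by omega) (Nat.even_iff.mpr (by omega)) m)
  exact ⟨_, B, hB, dvd_mul_right _ _, e⟩

end Pool.Agent.Results.MP_c9c571_nt.Liu
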